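import Pool.Agent.W758.AHC.Stm2

/-! The numerical inequality from its parts. -/

set_option autoImplicit false

namespace Pool.Agent.W824.AHC

open Pool.Agent.W758.AHC

theorem prodSS (hcc : S_CC) (L : List ℕ) : (((L.map SS).prod : ℕ) : ℚ) =
    2 ^ L.sum * (L.map (fun r => 2 * cc (r / 2 + 1))).prod := by
  induction L with
  | nil => simp
  | cons a L ih =>
    rw [List.map_cons, List.prod_cons, List.map_cons, List.prod_cons, List.sum_cons, Nat.cast_mul,
      ih, hcc.2.1 a, pow_succ, pow_add]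
    ring

theorem ff_eq (p : ℕ) : ((2 * 2 ^ p + 1 : ℕ) : ℚ) = 3 * 2 ^ p * FF p := by
  have h : (2 : ℚ) ^ p * (1 / 2) ^ p = 1 := by
    rw [← mul_pow]; norm_num
  unfold FF
  push_cast
  linear_combination (-1 : ℚ) * h

theorem ff_pos (p : ℕ) : 0 < FF p := by
  unfold FF
  positivity

theorem numof : S_NUMof := by
  intro hcc hphi hstar hexc m p q n l L hm hL hr hp hq hn hl h1 h2
  have key : PhiZ m L * (FF p * FF q) ≤ cc l := by
    by_cases hE : m = 2 ∧ L = [3, 3]
    · obtain ⟨rfl, rfl⟩ := hE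
      have hs : [3, 3].sum = 6 := rfl
      rw [hs] at hp hq hn
      have h3 := hexc hcc p q (by omega) (by omega) (fun h => h1 ⟨rfl, rfl, h.1, h.2⟩)
      have h4 : PhiZ 2 [3, 3] = 9 / 32 := by
        have c1 : cc 1 = 1 / 2 := by
          unfold cc
          rw [show Nat.centralBinom 1 = 2 by decide]
          norm_num
        have c2 : cc 2 = 3 / 8 := by
          unfold cc
          rw [show Nat.centralBinom 2 = 6 by decide]
          norm_num
        unfold PhiZ
        simp only [List.map_cons, List.map_nil, List.prod_cons, List.prod_nil]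
        rw [show (2 + 1) / 2 = 1 by norm_num, show 3 / 2 + 1 = 2 by norm_num, c1, c2]
        norm_num
      rw [h4]
      refine h3.trans (hcc.2.2.2.2.1 ?_)
      omega
    · obtain ⟨k, hk2, hG, hP, hk⟩ := hphi hcc m L hm hL hr hE
      have h3 := hstar hcc k p q hk2 (by omega) (by omega) (by
        rintro ⟨h5, h6⟩
        obtain ⟨hm2, r, hr3, rfl⟩ := hk h5
        have hs : [r].sum = r := by simp
        rw [hs] at hp hq
        refine h2 ⟨by omega, ?_, h6⟩
        have : r = 3 := by omega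
        rw [this])
      have h4 : cc (k + (1 + p + q) / 2) ≤ cc l := hcc.2.2.2.2.1 (by omega)
      have h5 := ff_pos p
      have h6 := ff_pos q
      calc PhiZ m L * (FF p * FF q) ≤ cc k * (FF p * FF q) :=
            mul_le_mul_of_nonneg_right hP (mul_nonneg h5.le h6.le)
        _ = FF p * FF q * cc k := by ring
        _ ≤ _ := h3.trans h4
  have hQ : ((M0 m * (L.map SS).prod * (2 * 2 ^ p + 1) * (2 * 2 ^ q + 1) * 4 ^ l : ℕ) : ℚ) ≤
      ((9 * 2 ^ n * Nat.choose (2 * l) l : ℕ) : ℚ) := by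
    rw [Nat.cast_mul, Nat.cast_mul, Nat.cast_mul, Nat.cast_mul, ff_eq, ff_eq, prodSS hcc,
      hcc.1 m, Nat.cast_mul, Nat.cast_mul, hcc.2.2.2.2.2.2 l]
    have e1 : (2 : ℚ) ^ m * cc ((m + 1) / 2) *
        (2 ^ L.sum * (L.map (fun r => 2 * cc (r / 2 + 1))).prod) * (3 * 2 ^ p * FF p) *
        (3 * 2 ^ q * FF q) * ((4 ^ l : ℕ) : ℚ) =
        (9 * 2 ^ n * 4 ^ l) * (PhiZ m L * (FF p * FF q)) := by
      rw [hn, pow_add, pow_add, pow_add]
      unfold PhiZ
      push_cast
      ring
    rw [e1]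
    have e2 : ((9 : ℕ) : ℚ) * ((2 ^ n : ℕ) : ℚ) * (4 ^ l * cc l) = (9 * 2 ^ n * 4 ^ l) * cc l := by
      push_cast
      ring
    rw [e2]
    exact mul_le_mul_of_nonneg_left key (by positivity)
  exact_mod_cast hQ

end Pool.Agent.W824.AHC
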